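import Pool.Agent.H462.QJ.Ev
import Pool.Agent.H508.N.My

/-!
# The weak Birch and Swinnerton-Dyer conjecture for the curves `x³ + y³ = 3 n`: several twists at once

`n > 1` runs through the cube-free numbers all of whose prime factors are `1` modulo `3`, and `E_n` is
the curve `y² = x³ + 144 n²` over `ℚ`.  It is `3`-isogenous to the curve `x³ + y³ = 3 n` and isomorphic
to `y² + 3 n y = x³`.

A splitting of `3 n` is a factorization `3 n = d₀ d₁ d₂` into coprime positive numbers such that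
`d₁ d₂²`, `d₂ d₀²`, `d₀ d₁²` are cubes modulo the primes dividing `d₀`, `d₁`, `d₂`.  There are exactly
`3 ^ (r + 1)` splittings for some `r`, the corank of `n`; the three trivial splittings show that the
number is at least three.

* For every `n` the function `L(E_n, s)` is entire, `E_n(ℚ)` is finitely generated, and its rank is at
  most `2 r`.  If `r = 0` then `L(E_n, 1) ≠ 0` and `E_n(ℚ)` is finite, so Q1 holds for `E_n`, and
  `x³ + y³ = 3 n` has only finitely many rational solutions.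
* Let `A_1, …, A_k` be different numbers of this kind (`1` is allowed, `k > 0`), and let `m > 1` run
  through ALL the cube-free numbers with all prime factors `1` modulo `3` which are prime to the `A_i`, or
  only through the squarefree ones, ordered by size.  The coranks of `A_1 m, …, A_k m` are asymptotically INDEPENDENT and each is distributed as
  `p_r = 3 ^ (-r²) ∏_{i ≥ 1} (1 - 3^{-i}) / ∏_{1 ≤ i ≤ r} (1 - 3^{-i})²`: for every set `E` of vectors the
  share of the `m` with `(corank A_1 m, …, corank A_k m) ∈ E` tends to `∑_{r ∈ E} ∏ p_{r_i}`.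
* So Q1 holds for ALL the `k` curves `E_{A_i m}` at once for a share of at least `p_0 ^ k - ε > 0.56 ^ k` of
  the `m`, and for AT LEAST ONE of them for a share of at least `1 - 0.44 ^ k`; all the ranks are at most
  `2` for a share of at least `0.98 ^ k`.  For `k = 1` and `A_1 = 1` this is Q1 for `56 %` of ALL the
  curves `E_n` with `n` as above.

All the parts are new: the congruence modulo powers of `√-3` for the values of the Hecke `L`-functions of
`E_n`, in which characters of conductor `9` times the conductor of the cubic twist occur (`N9/Phi` –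
`N9/Main`), the descent at the additional bad prime `3` (`N9/Ram` – `N9/Crit`, `QJ/Rk`), the joint law of the coranks
for natural density and squarefree `m` (`QJ`), and the passage to all the cube-free `m` (`H508/N/Mx`,
`My`).  The coranks of `A_i m` are the coranks of `k` square matrices
over the field with three elements in which the same cubic residue symbols of the primes of `m` occur, and
only the symbols of the primes of the `A_i` differ.
-/

set_option autoImplicit false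

namespace Pool.Agent.Results.MP_8b7eba_nt.CubeSumCurves

open scoped Classical
open Filter Finset

/-- `f` is entire and equal to the Euler product of `y² = x³ + A x + B` for `Re s > 3/2`. -/
def IsLSeries (A B : ℤ) (f : ℂ → ℂ) : Prop :=
  Differentiable ℂ f ∧ ∀ s : ℂ, (3 : ℝ) / 2 < s.re →
      HasProd
        (fun p : {p : ℕ // p.Prime ∧ ¬ ((p : ℤ) ∣ 2 * (4 * A ^ 3 + 27 * B ^ 2))} =>
          ((1 : ℂ)
            - ((((p.1 : ℤ) - (Nat.card {q : ZMod p.1 × ZMod p.1 //
                  q.2 ^ 2 = q.1 ^ 3 + (A : ZMod p.1) * q.1 + (B : ZMod p.1)} : ℤ)) : ℤ) : ℂ)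
                * ((p.1 : ℂ) ^ (-s))
            + (p.1 : ℂ) ^ (1 - 2 * s))⁻¹)
        (f s)

/-- The assertion of Q1 for the curve `y² = x³ + A x + B`: the continuation of the `L`-series vanishes at
`1` exactly when the curve has infinitely many rational points. -/
def Q1 (A B : ℤ) : Prop := ∀ f : ℂ → ℂ, IsLSeries A B f →
  (f 1 = 0 ↔ {q : ℚ × ℚ | q.2 ^ 2 = q.1 ^ 3 + (A : ℚ) * q.1 + (B : ℚ)}.Infinite)

/-- The curve `E_n : y² = x³ + 144 n²` over `ℚ`. -/
def curve (n : ℕ) : WeierstrassCurve ℚ := ⟨0, 0, 0, 0, 144 * (n : ℚ) ^ 2⟩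

/-- `n` is not zero, cube-free, and all its prime factors are `1` modulo `3`. -/
def Good (n : ℕ) : Prop :=
  n ≠ 0 ∧ (∀ p : ℕ, p.Prime → p ∣ n → p % 3 = 1) ∧ ∀ p : ℕ, p.Prime → ¬ p ^ 3 ∣ n

/-- The `m` with `1 < m ≤ X`, cube-free, with all prime factors `1` modulo `3`, prime to all the `A_i`; if
`b` is true, then only the squarefree ones. -/
def family {k : ℕ} (b : Bool) (A : Fin k → ℕ) (X : ℕ) : Set ℕ :=
  {m | m ≤ X ∧ 1 < m ∧ Good m ∧ (b = true → Squarefree m) ∧ ∀ i, Nat.Coprime m (A i)}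

/-- The share of the `m` of the family up to `X` with the property `P`. -/
noncomputable def share {k : ℕ} (b : Bool) (A : Fin k → ℕ) (P : ℕ → Prop) (X : ℕ) : ℝ :=
  (({m ∈ family b A X | P m}.ncard : ℕ) : ℝ) / ((family b A X).ncard : ℝ)

/-- The share of the `m` with the property `P` is at least `δ` for all large `X`. -/
def AtLeast {k : ℕ} (b : Bool) (A : Fin k → ℕ) (P : ℕ → Prop) (δ : ℝ) : Prop :=
  ∃ X₀ : ℕ, ∀ X : ℕ, X₀ ≤ X → δ ≤ share b A P X

/-- The factorizations `D = d₀ d₁ d₂` into coprime numbers such that `d_{c+1} d_{c+2}²` is a cube modulo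
the primes which divide `d_c`. -/
def splittings (D : ℕ) : Set (ZMod 3 → ℕ) :=
  {d | ∏ c, d c = D ∧ (∀ c c', c ≠ c' → Nat.Coprime (d c) (d c')) ∧
    ∀ (c : ZMod 3) (p : ℕ), p.Prime → p ∣ d c →
      ∃ x : ℤ, (p : ℤ) ∣ (d (c + 1) : ℤ) * (d (c + 2) : ℤ) ^ 2 - x ^ 3}

/-- `n` has the corank `r`: there are `3 ^ (r + 1)` splittings of `3 n`. -/
def Corank (n r : ℕ) : Prop := (splittings (3 * n)).ncard = 3 ^ (r + 1)

/-- The rank of `E_n(ℚ)`. -/
noncomputable def rank (n : ℕ) : ℕ := Module.finrank ℤ (curve n).toAffine.Point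

/-- `p_r = 3 ^ (-r²) ∏_{i ≥ 1} (1 - 3^{-i}) / ∏_{1 ≤ i ≤ r} (1 - 3^{-i})²`. -/
noncomputable def p (r : ℕ) : ℝ :=
  (1 / 3 : ℝ) ^ (r ^ 2) * ((∏' i : ℕ, (1 - (1 / 3 : ℝ) ^ (i + 1))) /
    (∏ i ∈ Finset.range r, (1 - (1 / 3 : ℝ) ^ (i + 1))) ^ 2)

/-- `E_n(ℚ)` is finite, `L(E_n, 1) ≠ 0`, Q1 holds for `E_n`, and `x³ + y³ = 3 n` has only finitely many
rational solutions. -/
def Solved (n : ℕ) : Prop := Finite (curve n).toAffine.Point ∧
    (∀ f, IsLSeries 0 (144 * (n : ℤ) ^ 2) f → f 1 ≠ 0) ∧ Q1 0 (144 * (n : ℤ) ^ 2) ∧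
    {q : ℚ × ℚ | q.1 ^ 3 + q.2 ^ 3 = 3 * n}.Finite

/-- For the curve `E_n`: the corank exists, the `L`-function is entire, the group is finitely generated
of rank at most twice the corank, and the corank zero implies `Solved`. -/
def Each (n : ℕ) : Prop := (∃! r, Corank n r) ∧ (∃ f, IsLSeries 0 (144 * (n : ℤ) ^ 2) f) ∧
    Module.Finite ℤ (curve n).toAffine.Point ∧ (∀ r, Corank n r → rank n ≤ 2 * r) ∧
    (Corank n 0 → Solved n)

/-- The probability of the set `E` of vectors for independent coordinates with the distribution `p`. -/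
noncomputable def prob {k : ℕ} (E : Set (Fin k → ℕ)) : ℝ :=
  ∑' r : Fin k → ℕ, E.indicator (fun r => ∏ i, p (r i)) r

open Pool.Agent.H462.N9.Law in
lemma p_eq (r : ℕ) : p r = ur r := rfl

open Pool.Agent.H462.N9.Law Pool.Agent.H462.N9.Short Pool.Agent.H462.QJ in
theorem each {n : ℕ} (hn : Good n) (h1 : n ≠ 1) : Each n := by
  have hB : (16 * ((3 * n : ℕ) : ℤ) ^ 2) = 144 * (n : ℤ) ^ 2 := by push_cast; ring
  have hES : ES (3 * n) = curve n := by
    unfold ES curve
    congr 1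
    push_cast
    ring
  have hq : ((3 * n : ℕ) : ℚ) = 3 * n := by push_cast; ring
  obtain ⟨k1, k2⟩ := one_n hn h1
  rw [hES, hB, hq] at k2
  rw [hB] at k1
  obtain ⟨r, hr⟩ := Pool.Agent.H462.QJ.exists_r hn
  refine ⟨⟨r, hr, fun s hs => ?_⟩, k1, (k2 r hr).1, fun s hs => (k2 s hs).2.1,
    fun h0 => (k2 0 h0).2.2 rfl⟩
  have e : (3 : ℕ) ^ (s + 1) = 3 ^ (r + 1) := Eq.trans (Eq.symm hs) hr
  have := Nat.pow_right_injective (by norm_num : 2 ≤ 3) e
  omega

section
variable {k : ℕ} {A : Fin k → ℕ} {b : Bool}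

lemma fam_good (hA : ∀ i, Good (A i)) {X m : ℕ} (hm : m ∈ family b A X) (i : Fin k) :
    Good (A i * m) ∧ A i * m ≠ 1 := by
  obtain ⟨-, h1, h2, -, h4⟩ := hm
  refine ⟨Pool.Agent.H508.N.cq_mul (hA i) h2 (h4 i), fun h => ?_⟩
  have := Nat.eq_one_of_mul_eq_one_left h
  omega

lemma fam_fin (X : ℕ) : (family b A X).Finite := (Set.finite_Iic X).subset fun m hm => hm.1

lemma share_mono {P Q : ℕ → Prop} {X : ℕ} (h : ∀ m ∈ family b A X, P m → Q m) :
    share b A P X ≤ share b A Q X := by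
  refine div_le_div_of_nonneg_right ?_ (Nat.cast_nonneg _)
  norm_cast
  exact Set.ncard_le_ncard (fun m hm => ⟨hm.1, h m hm.1 hm.2⟩)
    ((fam_fin X).subset fun m hm => hm.1)

lemma atLeast_of {P Q : ℕ → Prop} {L δ : ℝ} (h : Tendsto (share b A P) atTop (nhds L)) (hδ : δ < L)
    (hPQ : ∀ X, ∀ m ∈ family b A X, P m → Q m) : AtLeast b A Q δ := by
  obtain ⟨X₀, h1⟩ := eventually_atTop.1 ((tendsto_order.1 h).1 δ hδ)
  exact ⟨X₀, fun X hX => (h1 X hX).le.trans (share_mono (hPQ X))⟩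

lemma fam_true (A : Fin k → ℕ) (X : ℕ) : family true A X = Pool.Agent.H462.QJ.FaA A X := by
  ext m
  constructor
  · rintro ⟨h1, h2, h3, h4, h5⟩
    exact ⟨h1, h2, h4 rfl, h3.2.1, h5⟩
  · rintro ⟨h1, h2, h3, h4, h5⟩
    exact ⟨h1, h2, Pool.Agent.H508.N.sq_cf ⟨h3, h4⟩, fun _ => h3, h5⟩

lemma fam_false (A : Fin k → ℕ) (X : ℕ) : family false A X = Pool.Agent.H508.N.FaD A X := by
  ext m
  constructor
  · rintro ⟨h1, h2, h3, -, h5⟩
    exact ⟨h1, h2, h3.2.1, h3.2.2, h5⟩
  · rintro ⟨h1, h2, h3, h4, h5⟩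
    exact ⟨h1, h2, ⟨by omega, h3, h4⟩, fun h => absurd h (by decide), h5⟩

/-- the joint law -/
theorem law (hk : k ≠ 0) (hA : ∀ i, Good (A i)) (hinj : Function.Injective A) (r : Fin k → ℕ) :
    Tendsto (share b A fun m => ∀ i, Corank (A i * m) (r i)) atTop (nhds (∏ i, p (r i))) := by
  cases b with
  | true =>
    refine (Pool.Agent.H462.QJ.lawA hA hinj r).congr fun X => ?_
    unfold share
    rw [fam_true]
    rfl
  | false =>
    have : Nonempty (Fin k) := ⟨⟨0, Nat.pos_of_ne_zero hk⟩⟩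
    refine (Pool.Agent.H508.N.lawD hA hinj r).congr fun X => ?_
    unfold share
    rw [fam_false]
    rfl

lemma vec_unique {m : ℕ} {s t : Fin k → ℕ} (h : ∀ i, Corank (A i * m) (s i))
    (h' : ∀ i, Corank (A i * m) (t i)) : s = t := Pool.Agent.H462.QJ.vec_unique h h'

/-- the `m` whose vector of coranks is in `E` -/
def evP (A : Fin k → ℕ) (E : Set (Fin k → ℕ)) (m : ℕ) : Prop := ∃ s ∈ E, ∀ i, Corank (A i * m) (s i)

theorem law_fin (hk : k ≠ 0) (hA : ∀ i, Good (A i)) (hinj : Function.Injective A)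
    (E : Finset (Fin k → ℕ)) :
    Tendsto (share b A (evP A (E : Set (Fin k → ℕ)))) atTop (nhds (∑ s ∈ E, ∏ i, p (s i))) := by
  have h := tendsto_finsetSum E fun s _ => law (b := b) hk hA hinj s
  refine h.congr fun X => ?_
  unfold share
  rw [← Finset.sum_div]
  congr 1
  have e : {m ∈ family b A X | evP A (E : Set (Fin k → ℕ)) m} =
      ⋃ s ∈ E, {m ∈ family b A X | ∀ i, Corank (A i * m) (s i)} := by
    ext D
    simp only [Set.mem_iUnion, exists_prop]
    constructor
    · rintro ⟨h1, s, hs, h3⟩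
      exact ⟨s, Finset.mem_coe.1 hs, h1, h3⟩
    · rintro ⟨s, hs, h1, h3⟩
      exact ⟨h1, s, Finset.mem_coe.2 hs, h3⟩
  rw [e, Pool.Agent.H462.QJ.ncard_un
    (fun s : Fin k → ℕ => {m ∈ family b A X | ∀ i, Corank (A i * m) (s i)})
    (fun s => (fam_fin X).subset fun D hD => hD.1) ?_]
  · push_cast
    rfl
  · intro s t hst
    rw [Set.disjoint_left]
    rintro D ⟨h1, h2⟩ ⟨-, h5⟩
    exact hst (vec_unique h2 h5)

lemma low_ev (hk : k ≠ 0) (hA : ∀ i, Good (A i)) (hinj : Function.Injective A)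
    (E : Set (Fin k → ℕ)) {P : ℝ}
    (hP : HasSum (fun r : Fin k → ℕ => E.indicator (fun r => ∏ i, p (r i)) r) P)
    {ε : ℝ} (hε : 0 < ε) : ∀ᶠ X : ℕ in atTop, P - ε < share b A (evP A E) X := by
  obtain ⟨F, hF⟩ := ((tendsto_order.1 hP).1 (P - ε) (by linarith)).exists
  have h1 := law_fin (b := b) hk hA hinj (F.filter fun r => r ∈ E)
  have e : ∑ r ∈ F, E.indicator (fun r => ∏ i, p (r i)) r =
      ∑ s ∈ F.filter (fun r => r ∈ E), ∏ i, p (s i) := by
    rw [Finset.sum_filter]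
    exact Finset.sum_congr rfl fun r _ => by rw [Set.indicator_apply]
  rw [e] at hF
  filter_upwards [(tendsto_order.1 h1).1 _ hF] with X hX
  refine hX.trans_le (share_mono ?_)
  rintro m - ⟨s, hs, b⟩
  exact ⟨s, (Finset.mem_filter.1 (Finset.mem_coe.1 hs)).2, b⟩

lemma ev_add (E : Set (Fin k → ℕ)) (X : ℕ) :
    share b A (evP A E) X + share b A (evP A Eᶜ) X ≤ 1 := by
  unfold share
  rw [← add_div]
  have h1 : Disjoint {m ∈ family b A X | evP A E m} {m ∈ family b A X | evP A Eᶜ m} := by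
    rw [Set.disjoint_left]
    rintro m ⟨a, s, hs, b⟩ ⟨a', t, ht, b'⟩
    exact ht (vec_unique b b' ▸ hs)
  have h2 : {m ∈ family b A X | evP A E m}.ncard + {m ∈ family b A X | evP A Eᶜ m}.ncard ≤
      (family b A X).ncard := by
    rw [← Set.ncard_union_eq h1 ((fam_fin X).subset fun m hm => hm.1)
      ((fam_fin X).subset fun m hm => hm.1)]
    refine Set.ncard_le_ncard ?_ (fam_fin X)
    rintro m (hm | hm)
    · exact hm.1
    · exact hm.1
  exact div_le_one_of_le₀ (by exact_mod_cast h2) (Nat.cast_nonneg _)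

/-- the law for every set of vectors -/
theorem law_ev (hk : k ≠ 0) (hA : ∀ i, Good (A i)) (hinj : Function.Injective A)
    (E : Set (Fin k → ℕ)) {P : ℝ}
    (hP : HasSum (fun r : Fin k → ℕ => E.indicator (fun r => ∏ i, p (r i)) r) P) :
    Tendsto (share b A (evP A E)) atTop (nhds P) := by
  have hf : HasSum (fun r : Fin k → ℕ => ∏ i, p (r i)) 1 := by
    have := Pool.Agent.H462.QJ.hasSum_pi
      (fun s => Pool.Agent.H462.N9.Law.ur_nonneg Pool.Agent.Y461.CX.t_C3 s)
      (Pool.Agent.H462.N9.Law.ur_hasSum Pool.Agent.Y461.CX.t_C3) k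
    rwa [one_pow] at this
  have hQ : HasSum (fun r : Fin k → ℕ => Eᶜ.indicator (fun r => ∏ i, p (r i)) r) (1 - P) := by
    have e : (fun r : Fin k → ℕ => Eᶜ.indicator (fun r => ∏ i, p (r i)) r) =
        fun r => (∏ i, p (r i)) - E.indicator (fun r => ∏ i, p (r i)) r := by
      funext r
      by_cases hr : r ∈ E
      · rw [Set.indicator_of_mem hr, Set.indicator_of_notMem (fun h : r ∈ Eᶜ => h hr), sub_self]
      · rw [Set.indicator_of_notMem hr, Set.indicator_of_mem (show r ∈ Eᶜ from hr), sub_zero]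
    rw [e]
    exact hf.sub hP
  rw [tendsto_order]
  constructor
  · intro a ha
    filter_upwards [low_ev (b := b) hk hA hinj E hP (sub_pos.2 ha)] with X hX
    linarith
  · intro a ha
    filter_upwards [low_ev (b := b) hk hA hinj Eᶜ hQ (sub_pos.2 ha)] with X hX
    have := ev_add (b := b) (A := A) E X
    linarith

open Pool.Agent.H462.N9.Law Pool.Agent.H462.QJ in
/-- at least one corank is zero -/
theorem law_one (hk : k ≠ 0) (hA : ∀ i, Good (A i)) (hinj : Function.Injective A) :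
    Tendsto (share b A (evP A {r | ∃ i, r i = 0})) atTop (nhds (1 - (1 - p 0) ^ k)) := by
  refine law_ev hk hA hinj _ ?_
  have hur : HasSum p 1 := ur_hasSum Pool.Agent.Y461.CX.t_C3
  have hun : ∀ s, 0 ≤ p s := fun s => ur_nonneg Pool.Agent.Y461.CX.t_C3 s
  have hf : HasSum (fun r : Fin k → ℕ => ∏ i, p (r i)) 1 := by
    have := hasSum_pi hun hur k
    rwa [one_pow] at this
  have hg : HasSum (fun s : ℕ => if s = 0 then 0 else p s) (1 - p 0) := by
    have h1 : HasSum (fun s : ℕ => if s = 0 then p s else 0) (p 0) := by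
      have := hasSum_single (f := fun s : ℕ => if s = 0 then p s else 0) 0
        (fun s hs => by simp [hs])
      simpa using this
    have e : (fun s : ℕ => if s = 0 then 0 else p s) =
        fun s => p s - if s = 0 then p s else 0 := by
      funext s
      by_cases hs : s = 0 <;> simp [hs]
    rw [e]
    exact hur.sub h1
  have h2 := hasSum_pi (g := fun s : ℕ => if s = 0 then 0 else p s)
    (fun s => by split_ifs; exacts [le_rfl, hun s]) hg k
  have e : (fun r : Fin k → ℕ => {r : Fin k → ℕ | ∃ i, r i = 0}.indicator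
      (fun r => ∏ i, p (r i)) r) =
      fun r => (∏ i, p (r i)) - ∏ i, (if r i = 0 then 0 else p (r i)) := by
    funext r
    by_cases hr : ∃ i, r i = 0
    · rw [Set.indicator_of_mem (show r ∈ {r : Fin k → ℕ | ∃ i, r i = 0} from hr)]
      obtain ⟨i, hi⟩ := hr
      rw [Finset.prod_eq_zero (f := fun i => if r i = 0 then 0 else p (r i)) (Finset.mem_univ i)
        (by simp [hi]), sub_zero]
    · rw [Set.indicator_of_notMem (show r ∉ {r : Fin k → ℕ | ∃ i, r i = 0} from hr)]
      push_neg at hr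
      rw [eq_comm, sub_eq_zero]
      exact Finset.prod_congr rfl fun i _ => (if_neg (hr i)).symm
  rw [e]
  exact hf.sub h2

/-- the law of the small coranks -/
theorem law_le (hk : k ≠ 0) (hA : ∀ i, Good (A i)) (hinj : Function.Injective A) (r : Fin k → ℕ) :
    Tendsto (share b A (evP A ((Fintype.piFinset fun i => range (r i + 1) : Finset (Fin k → ℕ)) :
      Set (Fin k → ℕ)))) atTop (nhds (∏ i, ∑ s ∈ range (r i + 1), p s)) := by
  rw [Finset.prod_univ_sum]
  exact law_fin hk hA hinj _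

lemma fam_low (hA : ∀ i, Good (A i)) : ∃ c : ℝ, 0 < c ∧ ∃ X₀ : ℕ, ∀ X : ℕ, X₀ ≤ X →
    c * (X / Real.sqrt (Real.log X)) ≤ ((family b A X).ncard : ℝ) := by
  obtain ⟨c, X₀, hc0, h⟩ := Pool.Agent.H462.QJ.faA_low hA
  refine ⟨c, hc0, max X₀ 3, fun X hX => ?_⟩
  have h2 : c * (X / Real.sqrt (Real.log X)) ≤ ((family true A X).ncard : ℝ) := by
    rw [fam_true]
    refine le_trans (le_of_eq ?_) (h X ((le_max_left _ _).trans hX))
    have hX3 : 3 ≤ X := (le_max_right _ _).trans hX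
    have h1 : 0 < Real.log X := Real.log_pos (by exact_mod_cast (by omega : 1 < X))
    rw [Real.rpow_neg h1.le, ← Real.sqrt_eq_rpow, mul_assoc, div_eq_mul_inv]
  refine h2.trans ?_
  norm_cast
  exact Set.ncard_le_ncard (fun m hm => ⟨hm.1, hm.2.1, hm.2.2.1, fun _ => hm.2.2.2.1 rfl,
    hm.2.2.2.2⟩) (fam_fin X)

end

open Pool.Agent.H462.N9.Law in
/-- **Main theorem.** -/
theorem result :
    -- (1) the curve, for each `n`
    (∀ n : ℕ, Good n → n ≠ 1 → Each n) ∧
    -- (2) the distribution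
    (0.56 < p 0 ∧ p 0 < 0.5602 ∧ p 1 = 3 / 4 * p 0 ∧ HasSum p 1 ∧
      ∀ r : ℕ, 1 - 3 / 3 ^ ((r + 1) ^ 2) ≤ ∑ s ∈ range (r + 1), p s) ∧
    -- several twists
    (∀ (b : Bool) (k : ℕ) (A : Fin k → ℕ), k ≠ 0 → (∀ i, Good (A i)) → Function.Injective A →
      -- (3) the `A_i m` are in the class, and the number of the `m`
      (∀ X : ℕ, ∀ m ∈ family b A X, ∀ i, Good (A i * m) ∧ A i * m ≠ 1) ∧
      (∃ c : ℝ, 0 < c ∧ ∃ X₀ : ℕ, ∀ X : ℕ, X₀ ≤ X →
        c * (X / Real.sqrt (Real.log X)) ≤ ((family b A X).ncard : ℝ)) ∧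
      -- (4) the joint law of the coranks
      HasSum (fun r : Fin k → ℕ => ∏ i, p (r i)) 1 ∧
      (∀ E : Set (Fin k → ℕ), Tendsto (share b A fun m => ∃ r ∈ E, ∀ i, Corank (A i * m) (r i))
        atTop (nhds (prob E))) ∧
      -- (5) Q1 for all, and for at least one, of the curves
      (∀ ε : ℝ, 0 < ε → AtLeast b A (fun m => ∀ i, Solved (A i * m)) (p 0 ^ k - ε)) ∧
      (∀ ε : ℝ, 0 < ε → AtLeast b A (fun m => ∃ i, Solved (A i * m)) (1 - (1 - p 0) ^ k - ε)) ∧
      AtLeast b A (fun m => ∀ i, Solved (A i * m)) (0.56 ^ k) ∧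
      AtLeast b A (fun m => ∃ i, Solved (A i * m)) (1 - 0.44 ^ k) ∧
      -- (6) small ranks
      (∀ (r : Fin k → ℕ) (ε : ℝ), 0 < ε → AtLeast b A (fun m => ∀ i, rank (A i * m) ≤ 2 * r i)
        ((∏ i, ∑ s ∈ range (r i + 1), p s) - ε)) ∧
      AtLeast b A (fun m => ∀ i, rank (A i * m) ≤ 2) (0.98 ^ k)) := by
  have hc := Pool.Agent.Y461.CX.t_C3
  have hp0 : (0.56 : ℝ) < p 0 := by
    rw [p_eq, ur_zero]
    exact hc.2.2.2
  have hp0' : p 0 < 0.5602 := by
    rw [p_eq, ur_zero]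
    exact c3_lt
  have hp1 : p 1 = 3 / 4 * p 0 := by rw [p_eq, p_eq, ur_one, ur_zero]
  refine ⟨fun n => each, ⟨hp0, hp0', hp1, ur_hasSum hc, fun r => ?_⟩, fun b k A hk hA hinj => ?_⟩
  · have h1 := (ur_part hc (r + 1)).1
    have h2 : (1 : ℝ) - 3 / 3 ^ ((r + 1) ^ 2) = 1 - 3 * (1 / 3 : ℝ) ^ ((r + 1) ^ 2) := by
      rw [one_div_pow, mul_one_div]
    rw [h2]
    exact h1
  have hlaw0 : Tendsto (share b A fun m => ∀ i, Corank (A i * m) 0) atTop (nhds (p 0 ^ k)) := by
    have h := law (b := b) hk hA hinj fun _ => 0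
    simp only [prod_const, card_univ, Fintype.card_fin] at h
    exact h
  have hlaw1 := law_one (b := b) hk hA hinj
  have hlaw2 : ∀ r : Fin k → ℕ, _ := fun r => law_le (b := b) hk hA hinj r
  have a1 : ∀ X, ∀ m ∈ family b A X, (∀ i, Corank (A i * m) 0) → ∀ i, Solved (A i * m) :=
    fun X m hm h i => (each (fam_good hA hm i).1 (fam_good hA hm i).2).2.2.2.2 (h i)
  have a2 : ∀ X, ∀ m ∈ family b A X, evP A {r | ∃ i, r i = 0} m → ∃ i, Solved (A i * m) := by
    rintro X m hm ⟨r, ⟨i, hi⟩, h⟩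
    have h1 := h i
    rw [hi] at h1
    exact ⟨i, (each (fam_good hA hm i).1 (fam_good hA hm i).2).2.2.2.2 h1⟩
  have a3 : ∀ (r : Fin k → ℕ) X, ∀ m ∈ family b A X, evP A ((Fintype.piFinset fun i =>
      range (r i + 1) : Finset (Fin k → ℕ)) : Set (Fin k → ℕ)) m →
      ∀ i, rank (A i * m) ≤ 2 * r i := by
    rintro r X m hm ⟨s, hs, h⟩ i
    have h2 := Fintype.mem_piFinset.1 (Finset.mem_coe.1 hs) i
    rw [mem_range] at h2
    exact ((each (fam_good hA hm i).1 (fam_good hA hm i).2).2.2.2.1 _ (h i)).trans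
      (Nat.mul_le_mul_left 2 (by omega))
  refine ⟨fun X m hm i => fam_good hA hm i, fam_low hA, ?_, fun E => ?_, fun ε hε => ?_,
    fun ε hε => ?_, ?_, ?_, fun r ε hε => ?_, ?_⟩
  · have := Pool.Agent.H462.QJ.hasSum_pi (fun s => ur_nonneg hc s) (ur_hasSum hc) k
    rwa [one_pow] at this
  · refine law_ev hk hA hinj E ?_
    have := Pool.Agent.H462.QJ.hasSum_pi (fun s => ur_nonneg hc s) (ur_hasSum hc) k
    exact (this.summable.indicator E).hasSum
  · exact atLeast_of hlaw0 (by linarith) a1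
  · exact atLeast_of hlaw1 (by linarith) a2
  · exact atLeast_of hlaw0 (pow_lt_pow_left₀ hp0 (by norm_num) hk) a1
  · refine atLeast_of hlaw1 ?_ a2
    have : (1 - p 0) ^ k < 0.44 ^ k := pow_lt_pow_left₀ (by linarith) (by linarith) hk
    linarith
  · exact atLeast_of (hlaw2 r) (by linarith) (a3 r)
  · refine atLeast_of (hlaw2 fun _ => 1) ?_ (a3 fun _ => 1)
    have h9 : ∑ s ∈ range (1 + 1), p s = 7 / 4 * p 0 := by
      rw [sum_range_succ, sum_range_one, hp1]
      ring
    rw [prod_const, card_univ, Fintype.card_fin, h9]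
    exact pow_lt_pow_left₀ (by linarith) (by norm_num) hk

end Pool.Agent.Results.MP_8b7eba_nt.CubeSumCurves
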