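import Pool.Agent.H564.BSD.Fragile

/-!
# How many primes can be left out of the products of Birch and Swinnerton-Dyer?

Let `E : y² = x³ + a x + b` be an elliptic curve over `ℚ`, `a, b ∈ ℤ`, `F` the entire continuation of
its incomplete `L`-series (the Euler factors at the primes dividing `2Δ` are removed) and
`r = ord_{s=1} F`. Birch and Swinnerton-Dyer found their conjecture from the products
`∏_{p ≤ x} #E(𝔽_p)/p`, with the sharp cut-off or with the Riesz weights `(1 - log p / log x)^κ`.
Here a weight `w(p)` is given to every prime (`w(p) = 0` if the prime is left out), and we ask for which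
weights the products
`R_κ(w; x) = ∑_{p ≤ x, p ∤ 2Δ} w(p) (1 - log p / log x)^κ log (#E(𝔽_p)/p)` still decide about the
zeros of `L(E, s)` in `Re s > 1` and about the equivalence `L(E, 1) = 0 ↔ E(ℚ)` infinite
(`Decides w a b F`, see there).

1. If `∑_{p ≤ x} |w(p) - 1| / √p = o(log log x)` then the weights decide for all curves. So a set `T` of
   primes with `∑_{p ∈ T, p ≤ x} 1/√p = o(log log x)`, whatever it is, can be left out.
2. This is the exact threshold. Let `f` be the newform of `E`, and suppose that the Riemann hypothesis is true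
   for `F`. There is a constant `K` such that for EVERY real `ρ` there is a set `T` of primes with
   `∑_{p ∈ T, p ≤ x} 1/√p ≤ K |ρ| log log x + O(1)` such that, if `T` is left out, all the means of order
   `κ ≥ 0` become `R_κ(x) + ρ log log x + O(1)`: the power of `log x` in the law of Birch and Swinnerton-Dyer
   is changed from `r` to `r + ρ`. In particular (`ρ = -r`) all means are bounded although `L(E, 1) = 0`, or
   (`r = 0`, `ρ = 1`) they grow as for a curve of rank one although `L(E, 1) ≠ 0`. If `ρ ≠ 0` then the remaining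
   primes do not decide.

Proof of 2: by the theorem of Rankin and Selberg for the primes and the smallness of the Riesz means
under the Riemann hypothesis, every window `(x^{1/8}, x]` contains many primes with `a_p > c √p` and many
with `a_p < - c √p`; a greedy choice among them gives `T`.
-/

set_option autoImplicit false

namespace Pool.Agent.Results.MP_8b7eba_nt.OmittedPrimes

open Pool.Agent.W263.BSD Filter Topology Classical
open CongruenceSubgroup UpperHalfPlane
open scoped MatrixGroups
open Pool.Agent.Results.MP_8b7eba_nt.OneSidedRieszMeans Pool.Agent.H564.BSD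

/-- **The exact threshold for the omission of primes.** -/
theorem result :
    -- 1. few primes can be left out
    (∀ w : ℕ → ℝ, (∀ ε : ℝ, 0 < ε → ∀ᶠ x : ℝ in atTop,
        ∑ p ∈ (Finset.range (⌊x⌋₊ + 1)).filter Nat.Prime, |w p - 1| / √p ≤
          ε * Real.log (Real.log x)) →
      ∀ a b : ℤ, 4 * a ^ 3 + 27 * b ^ 2 ≠ 0 → ∀ F : ℂ → ℂ, IsLSeries a b F → Decides w a b F) ∧
    -- 2. the threshold is exact
    (∀ a b : ℤ, 4 * a ^ 3 + 27 * b ^ 2 ≠ 0 → ∀ F : ℂ → ℂ, IsLSeries a b F →
      ∀ (N : ℕ) [NeZero N] (f : CuspForm (Gamma0 N : Subgroup (GL (Fin 2) ℝ)) 2),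
      IsNewformOf a b N f → NoZeros F →
      ∃ K : ℝ, 0 < K ∧ ∀ ρ : ℝ, ∃ T : Set ℕ, (∀ p ∈ T, GoodPrime a b p) ∧
        (∃ C : ℝ, ∀ᶠ x : ℝ in atTop,
          ∑ p ∈ (Finset.range (⌊x⌋₊ + 1)).filter (fun p => p ∈ T), 1 / √(p : ℝ) ≤
            K * |ρ| * Real.log (Real.log x) + C) ∧
        (∀ κ : ℝ, 0 ≤ κ → ∃ M : ℝ, ∀ᶠ x : ℝ in atTop,
          |wriesz (fun p => if p ∈ T then 0 else 1) a b κ x -
            (riesz a b κ x + ρ * Real.log (Real.log x))| ≤ M) ∧
        (ρ ≠ 0 → ¬ Decides (fun p => if p ∈ T then 0 else 1) a b F)) := by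
  refine ⟨?_, ?_⟩
  · intro w hw a b hΔ F hF
    exact main (close_of_small hw) hΔ hF
  · intro a b hΔ F hF N _ f hf hz
    exact fragile_newform hΔ hF N f hf hz

end Pool.Agent.Results.MP_8b7eba_nt.OmittedPrimes
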