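import Pool.Agent.H564.BSD.Fragile

/-!
# Almost every random sample of the primes decides about the conjecture of Birch and Swinnerton-Dyer

Let `E : y² = x³ + a x + b` be an elliptic curve over `ℚ`, `a, b ∈ ℤ`, `F` the entire continuation of
its incomplete `L`-series (the Euler factors at the primes dividing `2Δ` are removed) and
`r = ord_{s=1} F`. Birch and Swinnerton-Dyer found their conjecture from the products
`∏_{p ≤ x} #E(𝔽_p)/p`, with the sharp cut-off or with the Riesz weights `(1 - log p / log x)^κ`.
All criteria of this kind use ALL primes. Here a random part of the primes is used: the primes are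
chosen independently, `p` with the probability `δ_p > 0`, and each chosen prime gets the weight `1/δ_p`.
With these weights `w` form
`R_κ(w; x) = ∑_{p ≤ x, p ∤ 2Δ} w(p) (1 - log p / log x)^κ log (#E(𝔽_p)/p)`.

If `∑_p 1 / (δ_p p (log log p)²) < ∞` then, almost surely, ONE AND THE SAME sample of the primes decides for
ALL elliptic curves over `ℚ` about the zeros of `L(E, s)` in `Re s > 1`, about the order of the zero
at `s = 1`, about its equality with the rank, and about the equivalence
`L(E, 1) = 0 ↔ E(ℚ)` infinite (`Decides w a b F`, see there). Every constant `δ_p = δ` is allowed, and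
`δ_p` may tend to `0`.

Proof. The series of the independent random variables `(w(p) - 1) log (#E(𝔽_p)/p) / log log p` converges
almost surely (Kolmogorov), so that the noise is `o(log log x)` for all curves (Kronecker's lemma), for all
Riesz means at once by Abel's inequality; now the one-sided theorem for all primes
(`MP_8b7eba_nt.OneSidedRieszMeans`) applies.
-/

set_option autoImplicit false

namespace Pool.Agent.Results.MP_8b7eba_nt.RandomSamples

open Pool.Agent.W263.BSD Filter Topology Classical MeasureTheory ProbabilityTheory
open Pool.Agent.Results.MP_8b7eba_nt.OneSidedRieszMeans Pool.Agent.H564.BSD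

/-- **Almost every random sample of the primes decides, for all elliptic curves over `ℚ` at once.** -/
theorem result :
    (∀ (Ω : Type) (_ : MeasurableSpace Ω) (μ : Measure Ω) (_ : IsProbabilityMeasure μ)
      (A : ℕ → Set Ω) (δ : ℕ → ℝ), (∀ p, MeasurableSet (A p)) → iIndepSet A μ →
      (∀ p, 0 < δ p) → (∀ p, μ (A p) = ENNReal.ofReal (δ p)) →
      (Summable fun p : Nat.Primes => 1 / (δ p * (p * Real.log (Real.log p) ^ 2))) →
      ∀ᵐ ω ∂μ, ∀ a b : ℤ, 4 * a ^ 3 + 27 * b ^ 2 ≠ 0 → ∀ F : ℂ → ℂ, IsLSeries a b F →
        Decides (fun p => if ω ∈ A p then 1 / δ p else 0) a b F) ∧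
    (∀ δ : ℝ, Summable fun p : Nat.Primes => 1 / (δ * (p * Real.log (Real.log p) ^ 2))) := by
  refine ⟨?_, summable_loglog⟩
  intro Ω mΩ μ hμ A δ hA hind hδ0 hδ hs
  filter_upwards [sample_close hA hind hδ0 hδ hs] with ω hω a b hΔ F hF
  exact main (hω a b) hΔ hF

end Pool.Agent.Results.MP_8b7eba_nt.RandomSamples
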