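import Pool.Agent.H506.X20.Cnt

/-!
# Weak Birch and Swinnerton-Dyer conjecture modulo `Ш[2]` for the twists of `X_0(20)`

`E_D : y² = x³ - 11 D x² - D² x`, in the form of the problem `y² = x³ - 3348 D² x - 74547 D³`
(substitute `x ↦ (x + 33 D) / 9`, `y ↦ y / 27`), is the quadratic twist by `D` of a curve of the isogeny
class of `X_0(20)` (no complex multiplication).  Let `e = 3` or `e = 7`.  `D` runs through the products
of different primes which are

* split: `p = 1` modulo `8` and `p = 1, 4` modulo `5`, at least one of them;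
* inert: `q = e` modulo `8` and `q = 2, 3` modulo `5`, an even number of them.

For EVERY such `D`: `L(E_D, s)` is entire; if `L(E_D, 1) = 0` then `E_D(ℚ)` is infinite or `Ш(E_D)` has an
element of order two; `E_D(ℚ)` is finite and `Ш(E_D)[2] = 0` if and only if an explicit symmetric matrix
over `𝔽₂` formed with the quadratic residue symbols of the prime factors of `D` is nonsingular (`Crit D`),
and then `L(E_D, 1) ≠ 0`, so that Q1 holds for `E_D`, the `2`-primary part of `Ш(E_D)` is trivial and the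
`2`-part of the formula of Birch and Swinnerton-Dyer holds: `L(E_D, 1) = v Ω ∏ c_p / #E_D(ℚ)_tors²` with a
`2`-adic unit `v`.  The `D` with `Crit D` have the natural density `∏_{i ≥ 0} (1 - 2^{-(2i+1)}) = 0.4194...`
in the family.

The theorem completes an unfinished project (Z695) of an earlier run of this collaboration, whose
parts (the Gross sums of the ternary quadratic forms of level `20`, the two descents, the Tamagawa
numbers, the large sieve) are modules of the library; here its hypotheses are discharged (`X20/Asm`,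
`X20/Den`), and the translation to the `L`-series and the points of the problem is `X20/Brg`, `X20/Fin`,
`X20/Cnt`.
-/

set_option autoImplicit false

open Filter

namespace Pool.Agent.Results.MP_8b7eba_nt.TwistsOfX020

open scoped Classical

open Pool.Agent.TH344.SH (Sha)

/-- `f` is entire and equal to the Euler product of `y² = x³ + A x + B` for `Re s > 3/2`. -/
def IsLSeries (A B : ℤ) (f : ℂ → ℂ) : Prop :=
  Differentiable ℂ f ∧ ∀ s : ℂ, (3 : ℝ) / 2 < s.re →
      HasProd
        (fun p : {p : ℕ // p.Prime ∧ ¬ ((p : ℤ) ∣ 2 * (4 * A ^ 3 + 27 * B ^ 2))} =>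
          ((1 : ℂ)
            - ((((p.1 : ℤ) - (Nat.card {q : ZMod p.1 × ZMod p.1 //
                  q.2 ^ 2 = q.1 ^ 3 + (A : ZMod p.1) * q.1 + (B : ZMod p.1)} : ℤ)) : ℤ) : ℂ)
                * ((p.1 : ℂ) ^ (-s))
            + (p.1 : ℂ) ^ (1 - 2 * s))⁻¹)
        (f s)

/-- the affine rational points of `y² = x³ + A x + B` -/
def ratPoints (A B : ℤ) : Set (ℚ × ℚ) := {q | q.2 ^ 2 = q.1 ^ 3 + (A : ℚ) * q.1 + (B : ℚ)}

/-- The assertion of Q1 for the curve `y² = x³ + A x + B`: the continuation of the `L`-series vanishes at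
`1` exactly when the curve has infinitely many rational points. -/
def Q1 (A B : ℤ) : Prop := ∀ f : ℂ → ℂ, IsLSeries A B f → (f 1 = 0 ↔ (ratPoints A B).Infinite)

/-- coefficient of the equation `y² = x³ + A x + B` of `E_D` -/
def A (D : ℕ) : ℤ := -3348 * (D : ℤ) ^ 2

/-- coefficient of the equation `y² = x³ + A x + B` of `E_D` -/
def B (D : ℕ) : ℤ := -74547 * (D : ℤ) ^ 3

/-- the minimal equation `y² = x³ - 11 D x² - D² x` of `E_D` -/
def minimal (D : ℕ) : WeierstrassCurve ℤ := ⟨0, -11 * (D : ℤ), 0, -(D : ℤ) ^ 2, 0⟩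

/-- the curve `E_D` over `ℚ` -/
abbrev curve (D : ℕ) : WeierstrassCurve ℚ := (minimal D).map (Int.castRingHom ℚ)

/-- the split primes -/
def Split (p : ℕ) : Prop := p.Prime ∧ p % 8 = 1 ∧ (p % 5 = 1 ∨ p % 5 = 4)

/-- the inert primes of the kind `e` -/
def Inert (e q : ℕ) : Prop := q.Prime ∧ q % 8 = e ∧ (q % 5 = 2 ∨ q % 5 = 3)

/-- the squarefree `D ≤ X` with split prime factors, at least one, and an even number of inert prime
factors of the kind `e` -/
def family (e X : ℕ) : Set ℕ :=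
  {D | D ≤ X ∧ Squarefree D ∧ (∀ p ∈ D.primeFactors, Split p ∨ Inert e p) ∧
    Even (D.primeFactors.filter fun q => q % 8 = e).card ∧ ∃ p ∈ D.primeFactors, Split p}

/-- the quadratic residue symbol of `n` modulo the prime `p`, written additively -/
noncomputable def sym (p n : ℕ) : ZMod 2 := if IsSquare (n : ZMod p) then 0 else 1

/-- the quadratic residue symbol of `(11 + 5 √5) / 2 = ((1 + √5) / 2)^5` modulo `p`, written additively
(for split `p` the two roots of `w² - 11 w - 1` have the same symbol) -/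
noncomputable def gold (p : ℕ) : ZMod 2 :=
  if ∀ w : ZMod p, w ^ 2 - 11 * w - 1 = 0 → ¬ IsSquare w then 1 else 0

/-- **The criterion.**  The matrix over `𝔽₂`, indexed by the split prime factors `p, q` of `D`, with the
entries `sym p q` outside of the diagonal and `∑_{r ∣ D, r ≠ p} sym p r + gold p` on the diagonal is
nonsingular. -/
def Crit (D : ℕ) : Prop := ∀ x : ℕ → ZMod 2,
  (∀ p ∈ D.primeFactors, p % 8 = 1 →
    ∑ q ∈ (D.primeFactors.erase p).filter (fun q => q % 8 = 1), sym p q * x q +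
      (∑ r ∈ D.primeFactors.erase p, sym p r + gold p) * x p = 0) →
  ∀ p ∈ D.primeFactors, p % 8 = 1 → x p = 0

/-- `E_D(ℚ)` is finite and `Ш(E_D/ℚ)` has no element of order two -/
def RankZeroShaTwo (D : ℕ) : Prop :=
  Finite (curve D).toAffine.Point ∧ ∀ c : Sha (curve D), 2 • c = 0 → c = 0

/-- the share in question: `∏_{i ≥ 0} (1 - 2^{-(2i+1)})` -/
noncomputable def share : ℝ := ∏' i : ℕ, (1 - (1 / 2 : ℝ) ^ (2 * i + 1))

/-- `Ω ∏ c_p / #E_D(ℚ)_tors²` -/
noncomputable def bsdQuotient (D : ℕ) : ℝ :=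
  Pool.Agent.Y695.Om (minimal D) * Pool.Agent.Y695.tamProd (minimal D) /
    (Nat.card (AddCommGroup.torsion (curve D).toAffine.Point) : ℝ) ^ 2

/-- `L(E_D, s)` is entire, and the open direction of Q1 holds modulo `Ш[2]`: if `L(E_D, 1) = 0` then
`E_D(ℚ)` is infinite or `Ш(E_D/ℚ)` has an element of order two. -/
def ModuloSha (D : ℕ) : Prop := (∃ F, IsLSeries (A D) (B D) F) ∧
  ∀ F, IsLSeries (A D) (B D) F → F 1 = 0 →
    (ratPoints (A D) (B D)).Infinite ∨ ∃ c : Sha (curve D), c ≠ 0 ∧ 2 • c = 0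

/-- `L(E_D, 1) ≠ 0`, Q1 holds for `E_D`, `E_D(ℚ)` is finite, and the `2`-primary part of `Ш(E_D/ℚ)` is
trivial. -/
def Solved (D : ℕ) : Prop := (∀ F, IsLSeries (A D) (B D) F → F 1 ≠ 0) ∧ Q1 (A D) (B D) ∧
  (ratPoints (A D) (B D)).Finite ∧ ∀ (k : ℕ) (c : Sha (curve D)), 2 ^ k • c = 0 → c = 0

/-- The complete `L`-function of the global minimal equation: `L(E_D, 1) = u y² Ω ∏ c_p / #E_D(ℚ)_tors²`
with a rational number `u` with odd numerator and denominator and an integer `y` which is odd if and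
only if `Crit D`. -/
def Formula (D : ℕ) : Prop := Pool.Agent.W97.MT.IsGloballyMinimal (minimal D) ∧
  ∃ (Λ : ℂ → ℂ) (y : ℤ) (u : ℚ), Pool.Agent.Y695.IsLFun (minimal D) Λ ∧
    Odd u.num ∧ Odd u.den ∧ (Odd y ↔ Crit D) ∧ Λ 1 = ((u * (y : ℝ) ^ 2 * bsdQuotient D : ℝ) : ℂ)

/-- the number of the `D` of the family is at least `c X / (log X) ^ (3/4)` -/
def Many (e : ℕ) : Prop := ∃ c : ℝ, 0 < c ∧ ∃ X₀ : ℕ, ∀ X : ℕ, X₀ ≤ X →
  c * X / (Real.log X) ^ (3 / 4 : ℝ) ≤ ((family e X).ncard : ℝ)

/-- the share of the `D ≤ X` of the family with `Crit D` tends to `share` -/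
def Law (e : ℕ) : Prop := Tendsto
  (fun X : ℕ => (({D ∈ family e X | Crit D}.ncard : ℕ) : ℝ) / ((family e X).ncard : ℝ))
  atTop (nhds share)

/-! ### comparison with the helper files -/

open Pool.Agent.H506.X20

lemma cls_iff {e : ℕ} (he : e = 3 ∨ e = 7) (X : ℕ) : family e X = Fm e X := by
  ext D
  constructor
  · rintro ⟨h1, h2, h3, h4, p, hp, h5⟩
    exact ⟨h1, h2, ⟨h3, Nat.even_iff.1 h4⟩, p, hp, h5.2.1⟩
  · rintro ⟨h1, h2, ⟨h3, h4⟩, p, hp, h5⟩
    refine ⟨h1, h2, h3, Nat.even_iff.2 h4, p, hp, ?_⟩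
    rcases h3 p hp with h6 | h6
    · exact h6
    · have := h6.2.1
      omega

lemma crit_iff (D : ℕ) : Crit D ↔ Crt D := by
  have key : ∀ (x : ℕ → ZMod 2), ∀ p ∈ D.primeFactors, p % 8 = 1 →
      ∑ q ∈ (D.primeFactors.erase p).filter (fun q => q % 8 = 1), sym p q * x q +
        (∑ r ∈ D.primeFactors.erase p, sym p r + gold p) * x p =
      ∑ q ∈ D.primeFactors, Pool.Agent.Y703.CQ.nr p q * (Pool.Agent.Y703.CQ.cu x q + x p) +
        Pool.Agent.Z695.Q.fw p * x p := by
    intro x p hp h8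
    have hg : Pool.Agent.Z695.Q.fw p = gold p := by
      unfold Pool.Agent.Z695.Q.fw Pool.Agent.Z695.xw gold
      split_ifs
      · norm_num
      · norm_num
    have hs : ∀ n, Pool.Agent.Y703.CQ.nr p n = sym p n := fun n => rfl
    have h0 : sym p p = 0 := by
      unfold sym
      rw [if_pos]
      rw [ZMod.natCast_self]
      exact ⟨0, by ring⟩
    rw [hg, ← Finset.add_sum_erase D.primeFactors _ hp]
    simp only [hs, h0, zero_mul, zero_add]
    have h1 : ∑ q ∈ D.primeFactors.erase p, sym p q * (Pool.Agent.Y703.CQ.cu x q + x p) =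
        ∑ q ∈ D.primeFactors.erase p, sym p q * Pool.Agent.Y703.CQ.cu x q +
          (∑ q ∈ D.primeFactors.erase p, sym p q) * x p := by
      rw [Finset.sum_mul, ← Finset.sum_add_distrib]
      exact Finset.sum_congr rfl fun q _ => by ring
    rw [h1, Finset.sum_filter]
    have h2 : ∑ q ∈ D.primeFactors.erase p, sym p q * Pool.Agent.Y703.CQ.cu x q =
        ∑ q ∈ D.primeFactors.erase p, if q % 8 = 1 then sym p q * x q else 0 := by
      refine Finset.sum_congr rfl fun q _ => ?_
      unfold Pool.Agent.Y703.CQ.cu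
      split_ifs
      · rfl
      · rw [mul_zero]
    rw [h2]
    ring
  unfold Crit Crt Pool.Agent.Y703.CQ.Gd Pool.Agent.Y703.CQ.Sol
  refine forall_congr' fun x => imp_congr ?_ Iff.rfl
  constructor
  · intro h p hp h8
    rw [← key x p hp h8]
    exact h p hp h8
  · intro h p hp h8
    rw [key x p hp h8]
    exact h p hp h8

/-- **Main theorem.** -/
theorem result (e : ℕ) (he : e = 3 ∨ e = 7) :
    -- (1) the number of the `D`
    Many e ∧
    -- (2) each `D`
    (∀ X : ℕ, ∀ D ∈ family e X, 4 * A D ^ 3 + 27 * B D ^ 2 ≠ 0 ∧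
      ModuloSha D ∧ (Crit D ↔ RankZeroShaTwo D) ∧ (Crit D → Solved D) ∧ Formula D) ∧
    -- (3) the exact proportion
    Law e ∧ 0.4194 < share ∧ share < 0.4195 := by
  have heo : Pool.Agent.Z695.Q.Ok e := he
  refine ⟨?_, ?_, ?_, Pool.Agent.Y948.CQ.t_C2.2.2.2.1, Pool.Agent.Y948.CQ.t_C2.2.2.2.2⟩
  · obtain ⟨c, hc, X₀, h⟩ := low heo
    refine ⟨c, hc, X₀, fun X hX => ?_⟩
    rw [cls_iff he]
    exact h X hX
  · intro X D hD
    rw [cls_iff he] at hD
    obtain ⟨k1, k2, k3, Λ, y, u, k4, k5, k6, k7, k8, k9⟩ := one heo hD.2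
    have hD0 : (D : ℤ) ≠ 0 := by exact_mod_cast hD.2.1.ne_zero
    rw [← crit_iff] at k2 k3 k5
    obtain ⟨F, hF1, hF2, hF3⟩ := exists_page hD0 k4
    have hF : IsLSeries (A D) (B D) F := ⟨hF1, hF2⟩
    have huniq : ∀ G, IsLSeries (A D) (B D) G → G = F := fun G hG =>
      Pool.Agent.Y687.unique_f hG.1 hF1 hG.2 hF2
    have hpts : (ratPoints (A D) (B D)).Finite ↔ Finite (curve D).toAffine.Point :=
      (fin_iff (D : ℤ) hD0).symm
    have hne : Crit D → F 1 ≠ 0 := by
      intro hc h0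
      have hy := k6 (hF3.1 h0)
      have := k5.2 hc
      rw [hy] at this
      exact absurd this (by decide)
    refine ⟨?_, ⟨⟨F, hF⟩, ?_⟩, k2.symm, ?_, k1, Λ, y, u, k4, k7, k8, k5, k9⟩
    · intro h0
      have h1 := disc_eq (D : ℤ)
      have h2 : 2 * (4 * AA D ^ 3 + 27 * BB D ^ 2) = 2 * (4 * A D ^ 3 + 27 * B D ^ 2) := rfl
      rw [h2, h0, mul_zero] at h1
      have h3 : (2 * 3 ^ 12 * 5 ^ 3 * (D : ℤ) ^ 6) ≠ 0 :=
        mul_ne_zero (by norm_num) (pow_ne_zero 6 hD0)
      exact h3 (by linarith)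
    · intro G hG h0
      rw [huniq G hG] at h0
      by_contra hcon
      rw [not_or, Set.not_infinite, not_exists] at hcon
      have hr : RankZeroShaTwo D := by
        refine ⟨hpts.1 hcon.1, fun c hc => ?_⟩
        by_contra hc0
        exact hcon.2 c ⟨hc0, hc⟩
      exact hne (k2.1 hr) h0
    · intro hc
      have hfin := hpts.2 (k2.2 hc).1
      refine ⟨fun G hG => by rw [huniq G hG]; exact hne hc, fun G hG => ?_, hfin, k3 hc⟩
      rw [huniq G hG]
      exact ⟨fun h0 => absurd h0 (hne hc), fun h0 => absurd hfin h0⟩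
  · have h := dens heo
    refine h.congr fun X => ?_
    rw [cls_iff he]
    simp only [crit_iff]

end Pool.Agent.Results.MP_8b7eba_nt.TwistsOfX020
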